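import Pool.Agent.Helper85.TS.Flat

set_option autoImplicit false

namespace Pool.Agent.Results.MP_8ff381_an.NoDiscreteOrUnrectifiableTests

open MeasureTheory

/-- The canonical embedding of `X` into its bidual is onto. -/
def Reflexive (X : Type) [NormedAddCommGroup X] [NormedSpace ℝ X] : Prop :=
  Function.Surjective (NormedSpace.inclusionInDoubleDual ℝ X)

/-- The family `M` of metric spaces uniformly bi-Lipschitzly embeds into `X`. -/
def UniformlyEmbeds {I : Type} (M : I → Type) [∀ i, MetricSpace (M i)] (X : Type)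
    [NormedAddCommGroup X] : Prop :=
  ∃ C : ℝ, ∀ i : I, ∃ f : M i → X, ∃ r : ℝ, 0 < r ∧ ∀ x y : M i,
    r * dist x y ≤ dist (f x) (f y) ∧ dist (f x) (f y) ≤ C * r * dist x y

/-- Every bounded subset is uniformly discrete. -/
def BoundedlyDiscrete (M : Type) [MetricSpace M] : Prop :=
  ∀ (o : M) (R : ℝ), ∃ θ : ℝ, 0 < θ ∧ ∀ x y : M, dist x o ≤ R → dist y o ≤ R → x ≠ y →
    θ ≤ dist x y

/-- Purely `1`-unrectifiable: `M` contains no bi-Lipschitz image of a compact set of real numbers
of positive Lebesgue measure. -/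
def PurelyUnrectifiable (M : Type) [MetricSpace M] : Prop :=
  ∀ (K : Set ℝ) (γ : ℝ → M) (C : ℝ), IsCompact K →
    (∀ s ∈ K, ∀ t ∈ K, dist (γ s) (γ t) ≤ C * |s - t| ∧ |s - t| ≤ C * dist (γ s) (γ t)) →
    volume K = 0

open Pool.Agent.Helper85.TS in
/-- There is a separable reflexive Banach space `Z` such that every family of metric spaces each of
which either has only uniformly discrete bounded subsets or is proper and purely
`1`-unrectifiable uniformly embeds into `Z` or does not uniformly embed into the separable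
non-reflexive space `ℓ_1`.  So no such family is a family of test spaces for reflexivity. -/
theorem result :
    ∃ (Z : Type) (_ : NormedAddCommGroup Z) (_ : NormedSpace ℝ Z),
      CompleteSpace Z ∧ TopologicalSpace.SeparableSpace Z ∧ Reflexive Z ∧
      CompleteSpace (lp (fun _ : ℕ => ℝ) 1) ∧
      TopologicalSpace.SeparableSpace (lp (fun _ : ℕ => ℝ) 1) ∧
      ¬ Reflexive (lp (fun _ : ℕ => ℝ) 1) ∧
      ∀ (I : Type) (M : I → Type) [∀ i, MetricSpace (M i)],
        (∀ i, BoundedlyDiscrete (M i) ∨ (ProperSpace (M i) ∧ PurelyUnrectifiable (M i))) →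
        UniformlyEmbeds M Z ∨ ¬ UniformlyEmbeds M (lp (fun _ : ℕ => ℝ) 1) := by
  classical
  have hsA := sep_ZA
  have hsB := sep_ZB
  refine ⟨ZA × ZB, inferInstance, inferInstance, inferInstance, inferInstance,
    rfx_prod rfx_ZA rfx_ZB, inferInstance, l1_sep, l1_not_rfx, fun I M _ hM => ?_⟩
  by_cases hE : UniformlyEmbeds M (lp (fun _ : ℕ => ℝ) 1)
  swap
  · exact Or.inr hE
  left
  obtain ⟨C, hC⟩ := hE
  have hκA : 0 < cGl (1 / 4) (8 * |C|) := cGl_pos (by norm_num) (by positivity)
  have hκB : 0 < cGl ((1 / 2 : ℝ) / 2) 16 := cGl_pos (by norm_num) (by norm_num)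
  refine ⟨max ((4 * (8 * |C| + 8 * |C|) + 1) / cGl (1 / 4) (8 * |C|))
    ((4 * (10 + 16) + 1) / cGl ((1 / 2 : ℝ) / 2) 16), fun i => ?_⟩
  rcases hM i with hi | ⟨hi1, hi2⟩
  · obtain ⟨a, r, hr, ha⟩ := hC i
    obtain ⟨h, hh⟩ := embA (M i) hi C a r hr ha
    refine ⟨fun x => (h x, 0), _, hκA, fun x y => ?_⟩
    have hd : dist ((h x, 0) : ZA × ZB) (h y, 0) = dist (h x) (h y) := by
      rw [Prod.dist_eq, dist_self, max_eq_left dist_nonneg]
    rw [hd]
    refine ⟨(hh x y).1, (hh x y).2.trans ?_⟩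
    refine mul_le_mul_of_nonneg_right ?_ dist_nonneg
    rw [← div_le_iff₀ hκA]
    exact le_max_left _ _
  · obtain ⟨h, hh⟩ := embB (c := 1 / 2) (by norm_num) (lf_of_pu (M := M i) hi2)
    refine ⟨fun x => (0, h x), _, hκB, fun x y => ?_⟩
    have hd : dist ((0, h x) : ZA × ZB) (0, h y) = dist (h x) (h y) := by
      rw [Prod.dist_eq, dist_self, max_eq_right dist_nonneg]
    rw [hd]
    refine ⟨(hh x y).1, (hh x y).2.trans ?_⟩
    refine mul_le_mul_of_nonneg_right ?_ dist_nonneg
    rw [← div_le_iff₀ hκB]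
    exact le_max_right _ _

end Pool.Agent.Results.MP_8ff381_an.NoDiscreteOrUnrectifiableTests
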