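import Pool.Agent.Helper62.NT.All

set_option autoImplicit false

namespace Pool.Agent.Results.MP_8ff381_an.NoTreeTestSpaces

/-- The canonical embedding of `X` into its bidual is onto. -/
def Reflexive (X : Type) [NormedAddCommGroup X] [NormedSpace ℝ X] : Prop :=
  Function.Surjective (NormedSpace.inclusionInDoubleDual ℝ X)

/-- `M` embeds into `X` with distortion at most `C`. -/
def EmbedsWith (C : ℝ) (M : Type) [MetricSpace M] (X : Type) [MetricSpace X] : Prop :=
  ∃ (f : M → X) (r : ℝ), 0 < r ∧ ∀ x y : M,
    r * dist x y ≤ dist (f x) (f y) ∧ dist (f x) (f y) ≤ C * r * dist x y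

/-- The family `M` of metric spaces uniformly bi-Lipschitzly embeds into `X`. -/
def UniformlyEmbeds {I : Type} (M : I → Type) [∀ i, MetricSpace (M i)] (X : Type)
    [NormedAddCommGroup X] : Prop :=
  ∃ C : ℝ, ∀ i : I, EmbedsWith C (M i) X

/-- The family `M` is a family of test spaces for reflexivity: a separable Banach space is
reflexive exactly when `M` does not uniformly embed into it. -/
def TestFamily {I : Type} (M : I → Type) [∀ i, MetricSpace (M i)] : Prop :=
  ∀ (X : Type) [NormedAddCommGroup X] [NormedSpace ℝ X] [CompleteSpace X]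
    [TopologicalSpace.SeparableSpace X], Reflexive X ↔ ¬ UniformlyEmbeds M X

/-- The four point condition of trees: `T` is isometric to a subset of an `ℝ`-tree. -/
def TreeLike (T : Type) [MetricSpace T] : Prop :=
  ∀ x y z w : T, dist x y + dist z w ≤ max (dist x z + dist y w) (dist x w + dist y z)

/-- `M` embeds with distortion at most `D` into a tree-like space. -/
def InTree (D : ℝ) (M : Type) [MetricSpace M] : Prop :=
  ∃ (T : Type) (_ : MetricSpace T), TreeLike T ∧ EmbedsWith D M T

/-- No family of subsets of `ℝ`-trees (or of metric spaces which embed with distortion at most `D`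
into `ℝ`-trees) is a family of test spaces for reflexivity: there are a separable reflexive Banach
space `Z` and a separable non-reflexive Banach space `X` such that every metric space in `ℝ`-trees
which embeds into `X` embeds into `Z`, with a distortion which depends only on the given ones. -/
theorem result :
    ∃ (Z : Type) (_ : NormedAddCommGroup Z) (_ : NormedSpace ℝ Z)
      (X : Type) (_ : NormedAddCommGroup X) (_ : NormedSpace ℝ X),
      (CompleteSpace Z ∧ TopologicalSpace.SeparableSpace Z ∧ Reflexive Z) ∧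
      (CompleteSpace X ∧ TopologicalSpace.SeparableSpace X ∧ ¬ Reflexive X) ∧
      (∀ C D : ℝ, ∃ K : ℝ, ∀ (M : Type) [MetricSpace M],
        InTree D M → EmbedsWith C M X → EmbedsWith K M Z) ∧
      ∀ (D : ℝ) (I : Type) (M : I → Type) [∀ i, MetricSpace (M i)], (∀ i, InTree D (M i)) →
        (UniformlyEmbeds M X → UniformlyEmbeds M Z) ∧ ¬ TestFamily M := by
  obtain ⟨X, iX, jX, hc, hs, hr, key⟩ := Pool.Agent.Helper62.NT.All.final
  have h1 := Pool.Agent.Helper62.NT.Fin.sep_HH
  have h2 : Reflexive Pool.Agent.Helper62.NT.HH := Pool.Agent.Helper62.NT.Fin.rfx_HH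
  have key' : ∀ C D : ℝ, ∃ K : ℝ, ∀ (M : Type) [MetricSpace M],
      InTree D M → EmbedsWith C M X → EmbedsWith K M Pool.Agent.Helper62.NT.HH := by
    intro C D
    obtain ⟨K, hK⟩ := key C D
    refine ⟨K, fun M _ hT hX => ?_⟩
    obtain ⟨T, iT, hTL, g, q, hq, hg⟩ := hT
    exact hK M ⟨T, iT, g, q, hTL, hq, hg⟩ hX
  have fam : ∀ (D : ℝ) (I : Type) (M : I → Type) [∀ i, MetricSpace (M i)],
      (∀ i, InTree D (M i)) → UniformlyEmbeds M X →
      UniformlyEmbeds M Pool.Agent.Helper62.NT.HH := by
    intro D I M _ hM hX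
    obtain ⟨C, hC⟩ := hX
    obtain ⟨K, hK⟩ := key' C D
    exact ⟨K, fun i => hK (M i) (hM i) (hC i)⟩
  refine ⟨Pool.Agent.Helper62.NT.HH, inferInstance, inferInstance, X, iX, jX,
    ⟨inferInstance, h1, h2⟩, ⟨hc, hs, hr⟩, key', fun D I M _ hM => ⟨fam D I M hM, fun hT => ?_⟩⟩
  have hX : UniformlyEmbeds M X := by
    by_contra h
    exact hr ((hT X).2 h)
  exact (hT Pool.Agent.Helper62.NT.HH).1 h2 (fam D I M hM hX)

end Pool.Agent.Results.MP_8ff381_an.NoTreeTestSpaces
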