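import Pool.Agent.Helper84.TR.Ord

set_option autoImplicit false

namespace Pool.Agent.Results.MP_8ff381_an.TreesOfCountableRank

open Ordinal

/-- The canonical embedding of `X` into its bidual is onto. -/
def Reflexive (X : Type) [NormedAddCommGroup X] [NormedSpace ℝ X] : Prop :=
  Function.Surjective (NormedSpace.inclusionInDoubleDual ℝ X)

/-- The family `M` of metric spaces uniformly bi-Lipschitzly embeds into `X`. -/
def UniformlyEmbeds {I : Type} (M : I → Type) [∀ i, MetricSpace (M i)] (X : Type)
    [NormedAddCommGroup X] : Prop :=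
  ∃ C : ℝ, ∀ i : I, ∃ f : M i → X, ∃ r : ℝ, 0 < r ∧ ∀ x y : M i,
    r * dist x y ≤ dist (f x) (f y) ∧ dist (f x) (f y) ≤ C * r * dist x y

/-- The family `M` is a family of test spaces for reflexivity: a separable Banach space is
reflexive exactly when `M` does not uniformly embed into it. -/
def TestFamily {I : Type} (M : I → Type) [∀ i, MetricSpace (M i)] : Prop :=
  ∀ (X : Type) [NormedAddCommGroup X] [NormedSpace ℝ X] [CompleteSpace X]
    [TopologicalSpace.SeparableSpace X], Reflexive X ↔ ¬ UniformlyEmbeds M X

/-- The four point condition of trees: `T` is isometric to a subset of an `ℝ`-tree. -/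
def TreeLike (T : Type) [MetricSpace T] : Prop :=
  ∀ x y z w : T, dist x y + dist z w ≤ max (dist x z + dist y w) (dist x w + dist y z)

/-- The distance from `o` at which the segments from `o` to `x` and from `o` to `y` separate (in the
real tree which contains the tree-like space `T`). -/
noncomputable def split {T : Type} [MetricSpace T] (o x y : T) : ℝ :=
  (dist x o + dist y o - dist x y) / 2

/-- `(x, q)` stands for the point at distance `q` from `o` on the segment from `o` to `x`.
Depth `β` above this point: the segment goes on, inside a segment from `o` to a point of `A`, up to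
distance more than `q + δ`; and for every `γ < β` the segment branches, strictly above `(x, q)`,
below two points `(y, s)` and `(z, t)`, none of which is below the other one, which both have
depth `γ`. -/
def Deep {T : Type} [MetricSpace T] (o : T) (A : Set T) (δ : ℝ) (β : Ordinal.{0}) (x : T)
    (q : ℝ) : Prop :=
  (∃ y ∈ A, q < split o x y ∧ q + δ < dist y o) ∧
  ∀ γ, γ < β → ∃ (y z : T) (s t : ℝ), q ≤ s ∧ q ≤ t ∧ q < split o x y ∧ q < split o x z ∧
    split o y z ≤ s ∧ split o y z ≤ t ∧ Deep o A δ γ y s ∧ Deep o A δ γ z t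
termination_by β

/-- The rank of `A` at the scale `δ` is below `α`: at no point all depths `β < α` occur. -/
def RankLT {T : Type} [MetricSpace T] (α : Ordinal.{0}) (o : T) (A : Set T) (δ : ℝ) : Prop :=
  ∀ (x : T) (q : ℝ), ∃ β < α, ¬ Deep o A δ β x q

/-- `M` embeds with distortion at most `D` into the `ℓ_1`-product of finitely many (any number `n`)
tree-like metric spaces, and for a base point `o` of `M` the images of the bounded subsets `A` of
`M` in these trees have rank below `α` at all scales `δ`. -/
def OfRank (α : Ordinal.{0}) (D : ℝ) (M : Type) [MetricSpace M] : Prop :=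
  ∃ (n : ℕ) (T : Fin n → Type) (_ : ∀ j, MetricSpace (T j)) (g : ∀ j, M → T j) (r : ℝ) (o : M),
    (∀ j, TreeLike (T j)) ∧ 0 < r ∧
    (∀ x y : M, r * dist x y ≤ ∑ j, dist (g j x) (g j y) ∧
      ∑ j, dist (g j x) (g j y) ≤ D * r * dist x y) ∧
    ∀ (j : Fin n) (A : Set M), Bornology.IsBounded A → ∀ δ : ℝ, 0 < δ →
      RankLT α (g j o) (g j '' A) δ

section

open Pool.Agent.Helper84.TR Pool.Agent.Helper85.TS

theorem deep_eq {T : Type} [MetricSpace T] (o : T) (A : Set T) (δ : ℝ) (β : Ordinal.{0}) :
    ∀ (x : T) (q : ℝ), Deep o A δ β x q ↔ Pool.Agent.Helper84.TR.Deep o A δ β x q := by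
  induction β using WellFoundedLT.induction with
  | ind β ih =>
    intro x q
    rw [Deep, deep_iff]
    refine and_congr Iff.rfl (forall_congr' fun γ => forall_congr' fun hγ => ?_)
    refine exists_congr fun y => exists_congr fun z => exists_congr fun s => exists_congr fun t => ?_
    rw [ih γ hγ, ih γ hγ]
    rfl

theorem rank_eq {T : Type} [MetricSpace T] (α : Ordinal.{0}) (o : T) (A : Set T) (δ : ℝ) :
    RankLT α o A δ ↔ Pool.Agent.Helper84.TR.RankLT α o A δ := by
  unfold RankLT Pool.Agent.Helper84.TR.RankLT
  simp only [deep_eq]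

theorem sep_of_emb {M X : Type} [MetricSpace M] [NormedAddCommGroup X]
    [TopologicalSpace.SeparableSpace X] {f : M → X} {r C : ℝ} (hr : 0 < r)
    (h : ∀ x y, r * dist x y ≤ dist (f x) (f y) ∧ dist (f x) (f y) ≤ C * r * dist x y) :
    TopologicalSpace.SeparableSpace M := by
  have h1 : UniformContinuous f := by
    refine (LipschitzWith.of_dist_le_mul (K := ⟨|C * r|, abs_nonneg _⟩)
      fun x y => ?_).uniformContinuous
    refine (h x y).2.trans ?_
    change C * r * dist x y ≤ |C * r| * dist x y
    gcongr
    exact le_abs_self _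
  have h2 : AntilipschitzWith ⟨r⁻¹, (inv_pos.2 hr).le⟩ f := by
    refine AntilipschitzWith.of_le_mul_dist fun x y => ?_
    change dist x y ≤ r⁻¹ * dist (f x) (f y)
    rw [← div_eq_inv_mul, le_div_iff₀ hr, mul_comm]
    exact (h x y).1
  have h3 := (h2.isUniformInducing h1).isInducing
  have h4 : SecondCountableTopology X := UniformSpace.secondCountable_of_separable X
  have h5 : SecondCountableTopology M := h3.secondCountableTopology
  infer_instance

theorem not_test_of_nonsep {I : Type} (M : I → Type) [∀ i, MetricSpace (M i)] (i : I)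
    (h : ¬ TopologicalSpace.SeparableSpace (M i)) : ¬ TestFamily M := by
  intro hT
  have h1 : TopologicalSpace.SeparableSpace L1 := l1_sep
  have h2 : ¬ Reflexive L1 := l1_not_rfx
  have h3 : ¬ ¬ UniformlyEmbeds M L1 := fun h4 => h2 ((hT L1).2 h4)
  refine h3 fun h4 => h ?_
  obtain ⟨C, hC⟩ := h4
  obtain ⟨f, r, hr, hf⟩ := hC i
  exact sep_of_emb hr hf

end

open Pool.Agent.Helper84.TR Pool.Agent.Helper85.TS in
/-- For every countable ordinal `α` there is one separable reflexive Banach space `Z` into which
every separable metric space `M` embeds, with distortion at most `13440 * D`, which has distortion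
at most `D` in a finite product of trees of rank below `α`.  So no family of metric spaces of this
kind (separable or not, with `D` and `α` fixed) is a family of test spaces for reflexivity. -/
theorem result (α : Ordinal.{0}) (hα : α < ω_ 1) :
    ∃ (Z : Type) (_ : NormedAddCommGroup Z) (_ : NormedSpace ℝ Z),
      CompleteSpace Z ∧ TopologicalSpace.SeparableSpace Z ∧ Reflexive Z ∧
      (∀ (D : ℝ) (M : Type) [MetricSpace M] [TopologicalSpace.SeparableSpace M], OfRank α D M →
        ∃ (f : M → Z) (r : ℝ), 0 < r ∧ ∀ x y : M, r * dist x y ≤ dist (f x) (f y) ∧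
          dist (f x) (f y) ≤ 13440 * D * r * dist x y) ∧
      ∀ (D : ℝ) (I : Type) (M : I → Type) [∀ i, MetricSpace (M i)],
        (∀ i, OfRank α D (M i)) → ¬ TestFamily M := by
  have hc := countable_toType hα
  obtain ⟨E, hE⟩ := embR α.ToType
  have key : ∀ (D : ℝ) (M : Type) [MetricSpace M] [TopologicalSpace.SeparableSpace M],
      OfRank α D M → ∃ (f : M → WR E) (r : ℝ), 0 < r ∧ ∀ x y : M,
        r * dist x y ≤ dist (f x) (f y) ∧ dist (f x) (f y) ≤ 13440 * D * r * dist x y := by
    intro D M _ _ h
    obtain ⟨n, T, _, g, r, o, h1, h2, h3, h4⟩ := h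
    refine embWR α.ToType hE o T h1 g h2 (fun x y => (h3 x y).1) (fun x y => (h3 x y).2) ?_
    intro A hA j m x q
    exact rank_toType ((rank_eq _ _ _ _).1 (h4 j A hA _ (by positivity))) x q
  have hR : Reflexive (WR E) := rfx_WR E
  have hS : TopologicalSpace.SeparableSpace (WR E) := sep_WR E
  refine ⟨WR E, inferInstance, inferInstance, inferInstance, hS, hR, key, ?_⟩
  intro D I M _ hM
  by_cases hs : ∃ i, ¬ TopologicalSpace.SeparableSpace (M i)
  · obtain ⟨i, hi⟩ := hs
    exact not_test_of_nonsep M i hi
  · push Not at hs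
    intro hT
    exact (hT (WR E)).1 hR ⟨13440 * D, fun i => by
      have := hs i
      exact key D (M i) (hM i)⟩

end Pool.Agent.Results.MP_8ff381_an.TreesOfCountableRank
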